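import Pool.Agent.Helper43.SP.SmithLF

/-!
Chains of a subtype and chains of the poset inside the subset: exactness is the same.
-/

set_option autoImplicit false

namespace Pool.Agent.Helper43.SP2

open Pool.Agent.Helper43.SP.FK
open Pool.Agent.Helper43.SP (Ch er er_coe FinLen)
open scoped Classical

noncomputable section

variable {k : Type*} [Field k] {X : Type*} [PartialOrder X] {T : Set X}

lemma mem_er {Q : Type*} [PartialOrder Q] (S : Ch Q) (x y : Q) :
    y ∈ (er S x).1 ↔ y ≠ x ∧ y ∈ S.1 := by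
  rw [er_coe, Finset.mem_erase]

/-- a chain of the subtype as a chain of `X` -/
def upCh (S : Ch T) : Ch X :=
  ⟨S.1.map (Function.Embedding.subtype _), by
    rw [Finset.coe_map]
    rintro _ ⟨a, ha, rfl⟩ _ ⟨b, hb, rfl⟩ hab
    have hne : a ≠ b := fun h => hab (by rw [h])
    rcases S.2 ha hb hne with h | h
    · exact Or.inl h
    · exact Or.inr h⟩

/-- the part of a chain in the subtype -/
def dnCh (T : Set X) (S : Ch X) : Ch T :=
  ⟨S.1.subtype (· ∈ T), by
    intro a ha b hb hab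
    have ha' : (a : X) ∈ S.1 := Finset.mem_subtype.1 ha
    have hb' : (b : X) ∈ S.1 := Finset.mem_subtype.1 hb
    have hne : (a : X) ≠ b := fun h => hab (Subtype.ext h)
    rcases S.2 ha' hb' hne with h | h
    · exact Or.inl h
    · exact Or.inr h⟩

lemma upCh_coe (S : Ch T) : (upCh S).1 = S.1.map (Function.Embedding.subtype _) := rfl

lemma mem_upCh {S : Ch T} {x : T} : (x : X) ∈ (upCh S).1 ↔ x ∈ S.1 := by
  rw [upCh_coe, Finset.mem_map]
  constructor
  · rintro ⟨y, hy, h⟩
    have : y = x := Subtype.ext h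
    rwa [← this]
  · intro h
    exact ⟨x, h, rfl⟩

lemma upCh_sub {S : Ch T} {x : X} (hx : x ∈ (upCh S).1) : ∃ h : x ∈ T, (⟨x, h⟩ : T) ∈ S.1 := by
  rw [upCh_coe, Finset.mem_map] at hx
  obtain ⟨y, hy, rfl⟩ := hx
  exact ⟨y.2, hy⟩

lemma card_upCh (S : Ch T) : (upCh S).1.card = S.1.card := by
  rw [upCh_coe, Finset.card_map]

lemma dn_up (S : Ch T) : dnCh T (upCh S) = S := by
  apply Subtype.ext
  ext x
  change x ∈ (upCh S).1.subtype (· ∈ T) ↔ x ∈ S.1
  rw [Finset.mem_subtype, mem_upCh]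

lemma up_dn {S : Ch X} (hS : InU T S) : upCh (dnCh T S) = S := by
  apply Subtype.ext
  ext x
  constructor
  · intro hx
    obtain ⟨h, h1⟩ := upCh_sub hx
    exact Finset.mem_subtype.1 h1
  · intro hx
    have h : x ∈ T := hS hx
    have h1 : (⟨x, h⟩ : T) ∈ (dnCh T S).1 := Finset.mem_subtype.2 hx
    exact mem_upCh.2 h1

lemma card_dnCh {S : Ch X} (hS : InU T S) : (dnCh T S).1.card = S.1.card := by
  rw [← card_upCh, up_dn hS]

lemma er_up (S : Ch T) (x : T) : er (upCh S) (x : X) = upCh (er S x) := by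
  apply Subtype.ext
  ext y
  rw [mem_er]
  constructor
  · rintro ⟨h1, h2⟩
    obtain ⟨h, h3⟩ := upCh_sub h2
    have h4 : (⟨y, h⟩ : T) ∈ (er S x).1 := by
      rw [mem_er]
      exact ⟨fun h5 => h1 (congrArg Subtype.val h5), h3⟩
    exact mem_upCh.2 h4
  · intro h2
    obtain ⟨h, h3⟩ := upCh_sub h2
    rw [mem_er] at h3
    exact ⟨fun h5 => h3.1 (Subtype.ext h5), mem_upCh.2 h3.2⟩

lemma sgn_up (S : Ch T) (x : T) : sgn k (upCh S) (x : X) = sgn k S x := by
  unfold sgn
  have : (upCh S).1.filter (· < (x : X)) =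
      (S.1.filter (· < x)).map (Function.Embedding.subtype _) := by
    ext y
    rw [Finset.mem_filter, Finset.mem_map]
    constructor
    · rintro ⟨h1, h2⟩
      obtain ⟨h, h3⟩ := upCh_sub h1
      exact ⟨⟨y, h⟩, Finset.mem_filter.2 ⟨h3, h2⟩, rfl⟩
    · rintro ⟨z, hz, rfl⟩
      rw [Finset.mem_filter] at hz
      exact ⟨mem_upCh.2 hz.1, hz.2⟩
  rw [this, Finset.card_map]

/-- push forward to `X` -/
def ps (k : Type*) [Field k] {X : Type*} [PartialOrder X] (T : Set X) :
    (Ch T →₀ k) →ₗ[k] (Ch X →₀ k) := opOf fun S => dl k (upCh S)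

/-- pull back to the subtype -/
def pl (k : Type*) [Field k] {X : Type*} [PartialOrder X] (T : Set X) :
    (Ch X →₀ k) →ₗ[k] (Ch T →₀ k) := opOf fun S => dl k (dnCh T S)

lemma ps_dl (S : Ch T) : ps k T (dl k S) = dl k (upCh S) := opOf_dl _ S

lemma pl_dl (S : Ch X) : pl k T (dl k S) = dl k (dnCh T S) := opOf_dl _ S

lemma pl_ps (v : Ch T →₀ k) : pl k T (ps k T v) = v := by
  have : (pl k T).comp (ps k T) = LinearMap.id := by
    refine ext_dl fun S => ?_
    rw [LinearMap.comp_apply, ps_dl, pl_dl, dn_up]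
    rfl
  exact congrArg (fun A : (Ch T →₀ k) →ₗ[k] (Ch T →₀ k) => A v) this

lemma ps_pl {v : Ch X →₀ k} (hv : Supp (InU T) v) : ps k T (pl k T v) = v := by
  have := Supp.eq (A := (ps k T).comp (pl k T)) (B := LinearMap.id) (fun S hS => by
    rw [LinearMap.comp_apply, pl_dl, ps_dl, up_dn hS]
    rfl) hv
  exact this

lemma bd_ps (v : Ch T →₀ k) : bd k X (ps k T v) = ps k T (bd k T v) := by
  have : (bd k X).comp (ps k T) = (ps k T).comp (bd k T) := by
    refine ext_dl fun S => ?_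
    rw [LinearMap.comp_apply, LinearMap.comp_apply, ps_dl, bd_dl, bd_dl, map_sum, upCh_coe,
      Finset.sum_map]
    refine Finset.sum_congr rfl fun x _ => ?_
    rw [map_smul, ps_dl]
    change sgn k (upCh S) (x : X) • dl k (er (upCh S) (x : X)) = _
    rw [sgn_up, er_up]
  exact congrArg (fun A : (Ch T →₀ k) →ₗ[k] (Ch X →₀ k) => A v) this

lemma bd_pl {v : Ch X →₀ k} (hv : Supp (InU T) v) : bd k T (pl k T v) = pl k T (bd k X v) := by
  rw [← pl_ps (bd k T (pl k T v)), ← bd_ps, ps_pl hv]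

lemma supp_ps {A : Set T} {v : Ch T →₀ k} (hv : Supp (InU A) v) :
    Supp (InU (Subtype.val '' A)) (ps k T v) := by
  refine Supp.map (fun S hS => ?_) hv
  rw [ps_dl]
  refine Supp.dl ?_
  intro x hx
  obtain ⟨h, h1⟩ := upCh_sub hx
  exact ⟨⟨x, h⟩, hS h1, rfl⟩

lemma supp_pl {A : Set T} {v : Ch X →₀ k} (hv : Supp (InU (Subtype.val '' A)) v) :
    Supp (InU A) (pl k T v) := by
  refine Supp.map (fun S hS => ?_) hv
  rw [pl_dl]
  refine Supp.dl ?_
  intro x hx
  obtain ⟨a, ha, h⟩ := hS (Finset.mem_subtype.1 hx)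
  have : a = x := Subtype.ext h
  rwa [← this]

lemma hom_ps {i : ℕ} {v : Ch T →₀ k} (hv : Hom i v) : Hom i (ps k T v) := by
  refine Supp.map (R := fun S : Ch T => S.1.card = i) (fun S hS => ?_) hv
  rw [ps_dl]
  refine Supp.dl ?_
  rw [card_upCh]
  exact hS

lemma hom_pl {i : ℕ} {v : Ch X →₀ k} (hv : Supp (InU T) v) (hvi : Hom i v) :
    Hom i (pl k T v) := by
  have h : Supp (fun S : Ch X => InU T S ∧ S.1.card = i) v := by
    intro S hS
    by_cases h1 : InU T S
    · exact hvi S fun h2 => hS ⟨h1, h2⟩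
    · exact hv S h1
  refine Supp.map (fun S hS => ?_) h
  rw [pl_dl]
  refine Supp.dl ?_
  rw [card_dnCh hS.1]
  exact hS.2

lemma inU_image {A : Set T} {S : Ch X} (hS : InU (Subtype.val '' A) S) : InU T S := by
  intro x hx
  obtain ⟨a, _, rfl⟩ := hS hx
  exact a.2

/-- Exactness of the chains of a subset of a subtype, in both descriptions. -/
theorem gex_iff (k : Type*) [Field k] {X : Type*} [PartialOrder X] (T : Set X) (A : Set T) :
    GEx k A ↔ GEx k (Subtype.val '' A : Set X) := by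
  constructor
  · intro h i v hv hvi hbv
    have hT : Supp (InU T) v := Supp.mono (fun S hS => inU_image hS) hv
    obtain ⟨w, hw, hwi, hwb⟩ := h i (pl k T v) (supp_pl hv) (hom_pl hT hvi)
      (by rw [bd_pl hT, hbv, map_zero])
    refine ⟨ps k T w, supp_ps hw, hom_ps hwi, ?_⟩
    rw [bd_ps, hwb, ps_pl hT]
  · intro h i v hv hvi hbv
    obtain ⟨w, hw, hwi, hwb⟩ := h i (ps k T v) (supp_ps hv) (hom_ps hvi)
      (by rw [bd_ps, hbv, map_zero])
    have hT : Supp (InU T) w := Supp.mono (fun S hS => inU_image hS) hw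
    refine ⟨pl k T w, supp_pl hw, hom_pl hT hwi, ?_⟩
    rw [bd_pl hT, hwb, pl_ps]

/-- The whole subtype. -/
theorem gex_univ (k : Type*) [Field k] {X : Type*} [PartialOrder X] (T : Set X) :
    GEx k (Set.univ : Set T) ↔ GEx k T := by
  rw [gex_iff, Subtype.coe_image_univ]

theorem finLen_sub (hn : FinLen X) (T : Set X) : FinLen T := by
  obtain ⟨n, hn⟩ := hn
  refine ⟨n, fun S => ?_⟩
  rw [← card_upCh]
  exact hn _

/-- Smith's theorem (locally finite version) on an invariant subset `T`: an order automorphism `F`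
of `X` with `F T = T` whose orbits on `T` are finite of `p`-power size. -/
theorem smithLF_on {p : ℕ} (hp : p.Prime) [CharP k p] (hn : FinLen X) (F : X ≃o X)
    (hF : ∀ x, F x ∈ T ↔ x ∈ T) (hFp : ∀ x ∈ T, ∃ a, F^[p ^ a] x = x) (hex : GEx k T) :
    GEx k {x : X | x ∈ T ∧ F x = x} := by
  let g : T ≃o T :=
    { toFun := fun x => ⟨F x, (hF x).2 x.2⟩
      invFun := fun x => ⟨F.symm x, (hF _).1 (by rw [F.apply_symm_apply]; exact x.2)⟩
      left_inv := fun x => Subtype.ext (F.symm_apply_apply x)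
      right_inv := fun x => Subtype.ext (F.apply_symm_apply x)
      map_rel_iff' := fun {a b} => F.le_iff_le }
  have hit : ∀ (n : ℕ) (x : T), ((g^[n] x : T) : X) = F^[n] x := by
    intro n
    induction n with
    | zero => intro x; rfl
    | succ n ih =>
      intro x
      rw [Function.iterate_succ_apply, Function.iterate_succ_apply, ih]
      rfl
  have h1 : GEx k {x : T | g x = x} :=
    smithLF g hp (fun x => by
      obtain ⟨a, ha⟩ := hFp x x.2
      exact ⟨a, Subtype.ext (by rw [hit]; exact ha)⟩) (finLen_sub hn T) ((gex_univ k T).2 hex)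
  have h2 := (gex_iff k T _).1 h1
  have h3 : (Subtype.val '' {x : T | g x = x} : Set X) = {x : X | x ∈ T ∧ F x = x} := by
    ext x
    constructor
    · rintro ⟨y, hy, rfl⟩
      exact ⟨y.2, congrArg Subtype.val hy⟩
    · rintro ⟨hx, hfx⟩
      exact ⟨⟨x, hx⟩, Subtype.ext hfx, rfl⟩
  rwa [h3] at h2

end

end Pool.Agent.Helper43.SP2
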