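import Pool.Agent.Helper80.PR.ZDefs

/-!
MP_3976d4_co, project PR, module M3, two parts: integral fillings of one-cycles in the whole poset,
and exactness over prime fields of a connected set with integral fillings.
-/

set_option autoImplicit false

namespace Pool.Agent.Helper43.SP2

open scoped Classical
open Relation
open Pool.Agent.Helper43.SP (Ch er emp sg er_coe FinLen)
open Pool.Agent.Helper43.SP.FK
open Pool.Agent.Helper80.PR

noncomputable section

variable {X : Type*} [PartialOrder X]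

lemma sz_zero (R : Ch X → Prop) : SuppZ R (0 : Ch X →₀ ℤ) := fun _ _ => rfl

lemma sz_add {R : Ch X → Prop} {v w : Ch X →₀ ℤ} (hv : SuppZ R v) (hw : SuppZ R w) :
    SuppZ R (v + w) := by
  intro i hi
  rw [Finsupp.add_apply, hv i hi, hw i hi, add_zero]

lemma sz_sub {R : Ch X → Prop} {v w : Ch X →₀ ℤ} (hv : SuppZ R v) (hw : SuppZ R w) :
    SuppZ R (v - w) := by
  intro i hi
  rw [Finsupp.sub_apply, hv i hi, hw i hi, sub_zero]

lemma sz_smul {R : Ch X → Prop} {v : Ch X →₀ ℤ} (n : ℤ) (hv : SuppZ R v) :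
    SuppZ R (n • v) := by
  intro i hi
  rw [Finsupp.smul_apply, hv i hi, smul_zero]

lemma sz_sum {R : Ch X → Prop} {α : Type*} (s : Finset α) (f : α → Ch X →₀ ℤ)
    (h : ∀ a ∈ s, SuppZ R (f a)) : SuppZ R (∑ a ∈ s, f a) := by
  induction s using Finset.induction_on with
  | empty => simpa using sz_zero R
  | insert a s ha ih =>
    rw [Finset.sum_insert ha]
    exact sz_add (h a (Finset.mem_insert_self _ _))
      (ih fun b hb => h b (Finset.mem_insert_of_mem hb))

lemma sz_single {R : Ch X → Prop} {S : Ch X} (hS : R S) (n : ℤ) :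
    SuppZ R (Finsupp.single S n) := by
  intro U hU
  rw [Finsupp.single_apply, if_neg]
  rintro rfl
  exact hU hS

lemma sz_mem {R : Ch X → Prop} {v : Ch X →₀ ℤ} (hv : SuppZ R v) {S : Ch X}
    (hS : S ∈ v.support) : R S := by
  by_contra h
  exact (Finsupp.mem_support_iff.mp hS) (hv S h)

/-- division of an integral chain with vanishing reduction -/
lemma divide (q : ℕ) [hq : Fact q.Prime] {u : Ch X →₀ ℤ} (hu : red (ZMod q) u = 0) :
    ∃ u' : Ch X →₀ ℤ, u = (q : ℤ) • u' ∧ ∀ R : Ch X → Prop, SuppZ R u → SuppZ R u' := by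
  refine ⟨u.mapRange (fun n : ℤ => n / q) (by simp), ?_, ?_⟩
  · ext S
    rw [Finsupp.smul_apply, Finsupp.mapRange_apply, smul_eq_mul]
    have h1 := congrArg (fun w : Ch X →₀ ZMod q => w S) hu
    simp only [red_apply, Finsupp.zero_apply] at h1
    rw [ZMod.intCast_zmod_eq_zero_iff_dvd] at h1
    exact (Int.mul_ediv_cancel' h1).symm
  · intro R hR S hS
    rw [Finsupp.mapRange_apply, hR S hS]
    simp

/-- integral lift -/
def lft (q : ℕ) (v : Ch X →₀ ZMod q) : Ch X →₀ ℤ :=
  v.mapRange (fun a : ZMod q => (a.val : ℤ)) (by simp)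

lemma red_lft (q : ℕ) [hq : Fact q.Prime] (v : Ch X →₀ ZMod q) : red (ZMod q) (lft q v) = v := by
  ext S
  have : NeZero q := ⟨hq.out.ne_zero⟩
  rw [red_apply, lft, Finsupp.mapRange_apply]
  simp

lemma sz_lft {q : ℕ} {R : Ch X → Prop} {v : Ch X →₀ ZMod q} (hv : ∀ S, ¬ R S → v S = 0) :
    SuppZ R (lft q v) := by
  intro S hS
  rw [lft, Finsupp.mapRange_apply, hv S hS]
  simp

lemma bdZ_sg (x : X) : bdZ (Finsupp.single (sg x : Ch X) (1 : ℤ)) = Finsupp.single emp 1 := by
  apply red_inj
  rw [red_bdZ, red_single, red_single, Int.cast_one, one_smul, one_smul, bd_sg]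

lemma bdZ_pc (a b : X) (h : a < b) : bdZ (Finsupp.single (pc a b h) (1 : ℤ)) =
    Finsupp.single (sg b) 1 - Finsupp.single (sg a) 1 := by
  apply red_inj
  rw [red_bdZ, red_single, red_sub, red_single, red_single, Int.cast_one, one_smul, one_smul,
    one_smul, bd_pc]

lemma walkZ {T : Set X} {x z : X} (h : ReflTransGen (adj T) x z) :
    ∃ w : Ch X →₀ ℤ, SuppZ (InU T) w ∧ SuppZ (fun S => S.1.card = 2) w ∧
      bdZ w = Finsupp.single (sg z) 1 - Finsupp.single (sg x) 1 := by
  induction h with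
  | refl => exact ⟨0, sz_zero _, sz_zero _, by rw [map_zero, sub_self]⟩
  | @tail a b _ h2 ih =>
    obtain ⟨w, hw1, hw2, hw3⟩ := ih
    have hin : ∀ a b : X, ∀ hab : a < b, a ∈ T → b ∈ T → InU T (pc a b hab) := by
      intro a b hab ha hb z hz
      simp only [pc, Finset.coe_insert, Finset.coe_singleton, Set.mem_insert_iff,
        Set.mem_singleton_iff] at hz
      rcases hz with rfl | rfl
      · exact ha
      · exact hb
    have hcd : ∀ a b : X, ∀ hab : a < b, (pc a b hab).1.card = 2 := by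
      intro a b hab
      exact Finset.card_pair hab.ne
    by_cases heq : a = b
    · subst heq
      exact ⟨w, hw1, hw2, hw3⟩
    · rcases h2.2.2 with h | h
      · have hab : a < b := lt_of_le_of_ne h heq
        refine ⟨w + Finsupp.single (pc a b hab) 1,
          sz_add hw1 (sz_single (hin _ _ _ h2.1 h2.2.1) _),
          sz_add hw2 (sz_single (R := fun S : Ch X => S.1.card = 2) (hcd _ _ _) _), ?_⟩
        rw [map_add, hw3, bdZ_pc]
        abel
      · have hab : b < a := lt_of_le_of_ne h (Ne.symm heq)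
        refine ⟨w - Finsupp.single (pc b a hab) 1,
          sz_sub hw1 (sz_single (hin _ _ _ h2.2.1 h2.1) _),
          sz_sub hw2 (sz_single (R := fun S : Ch X => S.1.card = 2) (hcd _ _ _) _), ?_⟩
        rw [map_sub, hw3, bdZ_pc]
        abel

lemma vertZ {T : Set X} {o : X} (hT : ∀ z ∈ T, ReflTransGen (adj T) o z) {u : Ch X →₀ ℤ}
    (hu : SuppZ (InU T) u) (hu1 : SuppZ (fun S => S.1.card = 1) u) :
    ∃ (y : Ch X →₀ ℤ) (c : ℤ), SuppZ (InU T) y ∧ SuppZ (fun S => S.1.card = 2) y ∧
      u = bdZ y + c • Finsupp.single (sg o) 1 := by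
  have h1 : ∀ S : Ch X, ∃ w : Ch X →₀ ℤ, SuppZ (InU T) w ∧ SuppZ (fun S => S.1.card = 2) w ∧
      (S ∈ u.support → bdZ w = Finsupp.single S 1 - Finsupp.single (sg o) 1) := by
    intro S
    by_cases hS : S ∈ u.support
    · obtain ⟨z, rfl⟩ := eq_sg (sz_mem hu1 hS)
      have hz : z ∈ T := sz_mem hu hS (by rw [sg_coe]; simp)
      obtain ⟨w, hw1, hw2, hw3⟩ := walkZ (hT z hz)
      exact ⟨w, hw1, hw2, fun _ => hw3⟩
    · exact ⟨0, sz_zero _, sz_zero _, fun h => absurd h hS⟩
  choose w hw1 hw2 hw3 using h1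
  refine ⟨∑ S ∈ u.support, u S • w S, ∑ S ∈ u.support, u S,
    sz_sum _ _ fun S _ => sz_smul _ (hw1 S), sz_sum _ _ fun S _ => sz_smul _ (hw2 S), ?_⟩
  rw [map_sum, Finset.sum_smul, ← Finset.sum_add_distrib]
  have h2 : ∀ S ∈ u.support, bdZ (u S • w S) + u S • Finsupp.single (sg o : Ch X) (1 : ℤ) =
      Finsupp.single S (u S) := by
    intro S hS
    rw [map_smul, hw3 S hS, smul_sub, sub_add_cancel, Finsupp.smul_single, smul_eq_mul, mul_one]
  rw [Finset.sum_congr rfl h2]
  exact (Finsupp.sum_single u).symm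

lemma single_emp_ne {c : ℤ} (h : c • Finsupp.single (emp : Ch X) (1 : ℤ) = 0) : c = 0 := by
  have := congrArg (fun w : Ch X →₀ ℤ => w emp) h
  simpa using this

/-- Exactness over prime fields of a connected set with integral fillings of one-cycles, in a poset
without chains of four elements on which the boundary is injective on chains of three elements. -/
theorem gex_of_fill (no4 : ∀ S : Ch X, S.1.card ≤ 3) {T : Set X} (hT : Conn T) (hI : IntFill T)
    (hJ : InjF X) (q : ℕ) [hq : Fact q.Prime] : GEx (ZMod q) T := by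
  obtain ⟨o, ho, hT⟩ := hT
  intro i v hv hvi hbd
  rcases Nat.lt_or_ge i 1 with hi | hi
  · have hi0 : i = 0 := by omega
    subst hi0
    refine ⟨v emp • dl (ZMod q) (sg o), Supp.smul _ (Supp.dl ?_),
      Supp.smul _ (Supp.dl (by simp [sg])), ?_⟩
    · intro z hz
      rw [sg_coe, Finset.coe_singleton, Set.mem_singleton_iff] at hz
      rw [hz]; exact ho
    · rw [map_smul, bd_sg]
      ext S
      rw [Finsupp.smul_apply, dl_apply, smul_eq_mul]
      by_cases hS : S = emp
      · rw [if_pos hS, hS, mul_one]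
      · rw [if_neg hS, mul_zero]
        symm
        refine hvi S fun h => hS (Subtype.ext ?_)
        exact Finset.card_eq_zero.mp h
  rcases Nat.lt_or_ge i 2 with hi2 | hi2
  · have hi1 : i = 1 := by omega
    subst hi1
    obtain ⟨y, c, hy1, hy2, hy3⟩ := vertZ hT (u := lft q v) (sz_lft hv)
      (sz_lft (R := fun S : Ch X => S.1.card = 1) hvi)
    have h1 : v = bd (ZMod q) X (red (ZMod q) y) + (c : ZMod q) • dl (ZMod q) (sg o) := by
      conv_lhs => rw [← red_lft q v, hy3]
      rw [red_add, red_bdZ, red_smul, red_single, Int.cast_one, one_smul]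
    have h2 : (c : ZMod q) = 0 := by
      have h3 := congrArg (bd (ZMod q) X) h1
      rw [hbd, map_add, bd_bd, map_smul, bd_sg, zero_add] at h3
      have h4 := congrArg (fun u : Ch X →₀ ZMod q => u emp) h3
      simp only [Finsupp.zero_apply, Finsupp.smul_apply, dl_self, smul_eq_mul, mul_one] at h4
      exact h4.symm
    refine ⟨red (ZMod q) y, hy1.red _, hy2.red _, ?_⟩
    rw [h2, zero_smul, add_zero] at h1
    exact h1.symm
  rcases Nat.lt_or_ge i 3 with hi3 | hi3
  · have hi1 : i = 2 := by omega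
    subst hi1
    have hl1 : SuppZ (InU T) (lft q v) := sz_lft hv
    have hl2 : SuppZ (fun S : Ch X => S.1.card = 2) (lft q v) :=
      sz_lft (R := fun S : Ch X => S.1.card = 2) hvi
    have hz1 : red (ZMod q) (bdZ (lft q v)) = 0 := by rw [red_bdZ, red_lft, hbd]
    obtain ⟨u, hu, hus⟩ := divide q hz1
    have hb1 : SuppZ (InU T) (bdZ (lft q v)) := by
      apply suppZ_of_red
      rw [red_bdZ]
      refine Supp.map (fun S hS => ?_) (hl1.red ℚ)
      rw [bd_dl]
      refine Supp.sum _ _ fun x hx => Supp.smul _ (Supp.dl ?_)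
      intro z hz
      rw [er_coe, Finset.coe_erase] at hz
      exact hS hz.1
    have hb2 : SuppZ (fun S : Ch X => S.1.card = 1) (bdZ (lft q v)) := by
      apply suppZ_of_red
      rw [red_bdZ]
      exact hom_bd (d := 1) (hl2.red ℚ)
    obtain ⟨y, c, hy1, hy2, hy3⟩ := vertZ hT (hus _ hb1) (hus _ hb2)
    have hc : c = 0 := by
      have hq0 : (q : ℤ) ≠ 0 := by exact_mod_cast hq.out.ne_zero
      have h3 := congrArg bdZ hu
      rw [bdZ_bdZ, map_smul] at h3
      have h4 : bdZ u = 0 := by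
        rcases smul_eq_zero.1 h3.symm with h5 | h5
        · exact absurd h5 hq0
        · exact h5
      rw [hy3, map_add, bdZ_bdZ, map_smul, bdZ_sg, zero_add] at h4
      exact single_emp_ne h4
    rw [hc, zero_smul, add_zero] at hy3
    obtain ⟨w, hw1, hw2, hw3⟩ := hI (lft q v - (q : ℤ) • y) (sz_sub hl1 (sz_smul _ hy1))
      (sz_sub hl2 (sz_smul _ hy2)) (by rw [map_sub, map_smul, hu, hy3, sub_self])
    refine ⟨red (ZMod q) w, hw1.red _, hw2.red _, ?_⟩
    rw [← red_bdZ, hw3, red_sub, red_smul, red_lft]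
    simp
  rcases Nat.lt_or_ge i 4 with hi4 | hi4
  · have hi1 : i = 3 := by omega
    subst hi1
    exact ⟨0, Supp.zero _, Supp.zero _, by rw [map_zero, hJ q hq v hvi hbd]⟩
  · have hv0 : v = 0 := by
      ext S
      rw [Finsupp.zero_apply]
      refine hvi S fun h => ?_
      have := no4 S
      omega
    exact ⟨0, Supp.zero _, Supp.zero _, by rw [map_zero, hv0]⟩

lemma common_den (w : Ch X →₀ ℚ) : ∃ (N : ℕ) (u : Ch X →₀ ℤ), 0 < N ∧
    (∀ R : Ch X → Prop, Supp R w → SuppZ R u) ∧ red ℚ u = (N : ℚ) • w := by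
  refine ⟨∏ S ∈ w.support, (w S).den,
    w.mapRange (fun a : ℚ => (((∏ S ∈ w.support, (w S).den : ℕ) : ℚ) * a).num) (by simp),
    Finset.prod_pos fun S _ => (w S).den_pos, ?_, ?_⟩
  · intro R hR S hS
    rw [Finsupp.mapRange_apply, hR S hS]
    simp
  · ext S
    rw [red_apply, Finsupp.mapRange_apply, Finsupp.smul_apply, smul_eq_mul]
    by_cases hS : S ∈ w.support
    · obtain ⟨m, hm⟩ := Finset.dvd_prod_of_mem (fun S => (w S).den) hS
      have h1 : ((∏ S ∈ w.support, (w S).den : ℕ) : ℚ) * w S = ((m * (w S).num : ℤ) : ℚ) := by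
        rw [hm]
        push_cast
        have h2 : ((w S).den : ℚ) * w S = (w S).num := by
          rw [mul_comm]
          exact Rat.mul_den_eq_num (w S)
        rw [← h2]
        ring
      rw [h1, Rat.num_intCast]
    · rw [Finsupp.notMem_support_iff.1 hS]
      simp

/-- Integral one-cycles bound integrally if the rational ones do and the boundary is injective on
chains of three elements over all prime fields. -/
theorem intFill_univ (hQ : GEx ℚ (Set.univ : Set X)) (hJ : InjF X) :
    IntFill (Set.univ : Set X) := by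
  intro v hv1 hv2 hbv
  have hall : ∀ u : Ch X →₀ ℤ, SuppZ (InU (Set.univ : Set X)) u := fun u S hS =>
    absurd (Set.subset_univ _) hS
  have key : ∃ N : ℕ, 0 < N ∧ ∃ w : Ch X →₀ ℤ, SuppZ (fun S => S.1.card = 3) w ∧
      bdZ w = (N : ℤ) • v := by
    obtain ⟨w, hw1, hw2, hw3⟩ := hQ 2 (red ℚ v) (hv1.red ℚ) (hv2.red ℚ)
      (by rw [← red_bdZ, hbv, red_zero])
    obtain ⟨N, u, hN, hu, hu'⟩ := common_den w
    refine ⟨N, hN, u, hu _ hw2, ?_⟩
    apply red_inj
    rw [red_bdZ, hu', map_smul, hw3, red_smul]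
    simp
  have hmin := Nat.find_spec key
  set N := Nat.find key with hNdef
  obtain ⟨hN0, w, hw1, hw2⟩ := hmin
  have hN1 : N = 1 := by
    by_contra hne
    obtain ⟨q, hq, m, hm⟩ := Nat.exists_prime_and_dvd hne
    have hqf : Fact q.Prime := ⟨hq⟩
    have h1 : red (ZMod q) w = 0 := by
      refine hJ q hqf _ (hw1.red _) ?_
      rw [← red_bdZ, hw2, red_smul, hm]
      simp
    obtain ⟨w', hw', hws⟩ := divide q h1
    have hq0 : (q : ℤ) ≠ 0 := by exact_mod_cast hq.ne_zero
    have hm0 : 0 < m := by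
      rcases Nat.eq_zero_or_pos m with h | h
      · rw [h, mul_zero] at hm
        omega
      · exact h
    have hlt : m < N := by
      rw [hm]
      have := hq.two_le
      nlinarith
    refine Nat.find_min key (hNdef ▸ hlt) ⟨hm0, w', hws _ hw1, ?_⟩
    have h2 : (q : ℤ) • bdZ w' = (q : ℤ) • ((m : ℤ) • v) := by
      rw [← map_smul, ← hw', hw2, hm, smul_smul]
      push_cast
      rfl
    exact smul_right_injective _ hq0 h2
  refine ⟨w, hall w, hw1, ?_⟩
  rw [hw2, hN1]
  simp

end

end Pool.Agent.Helper43.SP2
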